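import Pool.Agent.V8H38.HZ.Final
import Pool.Agent.V8H38.HZ.Small

/-!
# Small circuits for an NP problem must have many hazards, on every set of variables

Circuits over AND, OR and NOT, exactly those of `P/poly`: the size is the number of AND gates and OR
gates, NOT gates are free and there is no restriction on their number or place.

A circuit can also be evaluated if some input bits are unknown, in three-valued logic
(`0 AND unknown = 0`, `1 AND unknown = unknown`, `NOT unknown = unknown`, and so on). It has a hazard
at such an input if the output of this evaluation is unknown, although all completions of the input
give the same output. Circuits without hazards for monotone functions are as large as monotone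
circuits. Here this is made quantitative, in the average case.

Let `P` be a set of variables, and let them be switched on one after the other. `H` is the greatest
number of disjoint intervals of the order such that the output is unknown when the variables in the
interval are unknown, the earlier ones are one and the later ones are zero. If the output of the
circuit is monotone in `P`, then all but one of these intervals are hazards.

* The law. Let `P` be any set of variables of the half-clique problem, that is any set of pairs of
  vertices. There are a distribution of inputs, with all bits outside `P` fixed, and a distribution
  of orders of the variables, such that every circuit of polynomial size is right with probability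
  at most `1 / 2 + polylog * (1 + H) / |P|`, where `H` is its expected number of disjoint intervals
  with unknown output. A circuit of polynomial size that computes the function has at least
  `|P| / polylog` disjoint hazards on average, on every set `P` of at least `(log n) ^ (4 + ε)` pairs
  of vertices.
* `H` is at most `|P|`, so a law which is stronger by more than a polylog factor, for one `P`, would
  be a proof of `NP ⊄ P/poly`. `H` is at most the number of steps at which the output or a bit read
  by a NOT gate changes. (So it is less than `2 ^ (t + 1)` if there are only `t` NOT gates.)
* On `O(log n)` variables all hazards can be avoided in polynomial size. So the law for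
  `|P| = O(log n)` (for one such `P`) would be a proof of `NP ⊄ P/poly`.

The proof: for a fixed input `x`, the three-valued output on the subcube between `x` and `y` is
computed by a monotone circuit with the input `y`, which has as many binary gates as the circuit has
AND gates and OR gates. It is treated by approximation with robust sunflowers at a random scale of a
chain of random inputs of growing density; a planted clique is noticed with at most twice the
probability with which the step of the chain is noticed.
-/

namespace Pool.Agent.Results.MP_79d702_lc.HazardsOnEverySet

open Pool.Agent.V8H38.HZ
open Pool.Agent.V8H38.NA (HalfClique Clique)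
open Pool.Agent.V8H38.EV (Pairs)

theorem result :
    -- the half-clique language is in `NP` and closed upwards
    Pool.Agent.NPC.InNP HalfClique ∧
    (∀ x y : List Bool, List.Forall₂ (· ≤ ·) x y → x ∈ HalfClique → y ∈ HalfClique) ∧
    -- the law for the half-clique language and every set `P` of pairs of vertices
    (∀ (n μ : ℕ) (P : Finset (Fin n)), Pairs (Nat.sqrt n) P → P.Nonempty →
      Nat.log 2 P.card < μ → 600 * ((Nat.log 2 P.card + 1) ^ 3 * μ ^ 2) ≤ Nat.sqrt n →
      UnknownBound n μ P (fun x => List.ofFn x ∈ HalfClique)) ∧
    -- the law for the clique function, for all clique sizes
    (∀ (v k μ : ℕ) (P : Finset (Fin (v * v))), Pairs v P → P.Nonempty →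
      Nat.log 2 P.card < μ → 270 * ((Nat.log 2 P.card + 1) ^ 3 * μ ^ 2) ≤ k → 2 * k ≤ v →
      UnknownBound (v * v) μ P (Clique v k)) ∧
    -- upper bounds for the number of disjoint intervals with unknown output
    (∀ (n : ℕ) (C : Circ n) (E : Finset (Fin n)) (z : Fin n → Bool) (π : Equiv.Perm (Fin n)),
      C.unknown E z π ≤ E.card ∧ C.unknown E z π ≤ C.flips E z π) ∧
    -- if the output is monotone, then unknown values are hazards, and on a small set of variables
    -- they can be avoided
    (∀ (n : ℕ) (C : Circ n) (E : Finset (Fin n)),
      (∀ x y : Fin n → Bool, (∀ a, a ∉ E → x a = y a) → (∀ a, x a = true → y a = true) →
        C.eval x = true → C.eval y = true) →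
      (∀ z π, C.unknown E z π ≤ C.hazards E z π + 1) ∧
      ∃ C' : Circ n, C'.size ≤ 2 ^ E.card * (C.size + 2) ∧ (∀ x, C'.eval x = C.eval x) ∧
        ∀ z π, C'.hazards E z π = 0 ∧ C'.unknown E z π ≤ 1) :=
  ⟨Pool.Agent.V8H38.NA.halfClique_inNP, fun _ _ h hx => Pool.Agent.V8H38.NA.halfClique_mono h hx,
    fun n μ P hP hne h1 h2 => halfClique_law n μ P hP hne h1 h2,
    fun v k μ P hP hne h1 h2 h3 => clique_law v k μ P hP hne h1 h2 h3,
    fun _ C E z π => ⟨unknown_le_card C E z π, unknown_le_flips C E z π⟩,
    fun _ C E hM => ⟨fun z π => unknown_le_hazards C E z π hM, small_set C E hM⟩⟩

end Pool.Agent.Results.MP_79d702_lc.HazardsOnEverySet
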