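import Pool.Agent.V8H38.NA.Final

/-!
# The power of `t` NOT gates

Circuits with real-valued monotone gates: maximum gates of any fan-in (free), binary gates which
apply any functions of two real numbers that are non-decreasing in both arguments (the size is their
number), and `t` NOT gates. AND gates are binary gates and OR gates are maximum gates.

* Lower bound. The half-clique language is in `NP`, and for every `n` there is a distribution of
  inputs such that circuits of polynomial size with `t` NOT gates are right with probability at most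
  `1 / 2 + polylog n * 2 ^ t / n`. More generally, `2 ^ t` can be replaced by the product over the
  layers of `w + 1`, where `w` is the number of nodes read by the arbitrary gates of the layer
  (for example, `t + 1` if no path contains two of the `t` NOT gates).
* Upper bound. For every function of `n` bits and every distribution there is a circuit with
  `2 * n + 2 * t + 1` binary gates and `t + 1` NOT gates which is right with probability at least
  `1 / 2 + 2 ^ t / (2 * (n + 2 ^ t))`, and if `n + 1 ≤ 2 ^ t` then `t` NOT gates and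
  `2 * n + 2 * t + 1` binary gates are enough for a circuit that is always right.

So the advantage over a constant that `t` NOT gates give for the hardest distribution is
`2 ^ t / n`, up to a power of `log n`; the half-clique problem needs `log n - O(log log n)` NOT
gates for polynomial size (even for size `2 ^ (n ^ c)` it needs `Ω(log n)` of them), and
`⌈log (n + 1)⌉` NOT gates give size `O(n)`.
-/

namespace Pool.Agent.Results.MP_79d702_lc.NegationPower

open Pool.Agent.V8H38.NA

/-- all arbitrary gates of the circuit are NOT gates, and there are at most `t` of them -/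
def Nots {n : ℕ} (C : Net n) (t : ℕ) : Prop :=
  C.nodes.countP Node.isAny ≤ t ∧ ∀ g ∈ C.nodes, g.isAny = true → ∃ a, g = Node.not a

theorem result :
    -- the half-clique language is in `NP` and closed upwards
    Pool.Agent.NPC.InNP HalfClique ∧
    (∀ x y : List Bool, List.Forall₂ (· ≤ ·) x y → x ∈ HalfClique → y ∈ HalfClique) ∧
    -- circuits with `t` NOT gates, or with few arbitrary gates in layers, are wrong about it on
    -- almost half of the inputs
    (∀ n μ : ℕ, 1 ≤ n → Nat.log 2 n < μ →
      ∃ D : (Fin n → Bool) → ℝ, (∀ x, 0 ≤ D x) ∧ ∑ x, D x = 1 ∧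
        ∀ C : Net n, C.Monotone → C.size ≤ 2 ^ μ →
          (∀ lev : ℕ → ℕ, C.Layered lev → C.agree D (fun x => List.ofFn x ∈ HalfClique) ≤
            1 / 2 + 2 ^ 27 * C.combos lev * ((Nat.log 2 n + 1) ^ 6 * μ ^ 4) / n) ∧
          ∀ t : ℕ, Nots C t → C.agree D (fun x => List.ofFn x ∈ HalfClique) ≤
            1 / 2 + 2 ^ 27 * 2 ^ t * ((Nat.log 2 n + 1) ^ 6 * μ ^ 4) / n) ∧
    -- the same advantage can be reached for every function and every distribution
    (∀ (n t : ℕ) (f : (Fin n → Bool) → Prop) (D : (Fin n → Bool) → ℝ), (∀ x, 0 ≤ D x) →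
      ∑ x, D x = 1 →
      ∃ C : Net n, C.Monotone ∧ C.size ≤ 2 * n + 2 * t + 1 ∧ Nots C (t + 1) ∧
        1 / 2 + 2 ^ t / (2 * (n + 2 ^ t)) ≤ C.agree D f) ∧
    -- every function has a circuit of linear size with `⌈log (n + 1)⌉` NOT gates
    (∀ (n t : ℕ) (f : (Fin n → Bool) → Prop), n + 1 ≤ 2 ^ t →
      ∃ C : Net n, C.Monotone ∧ C.size ≤ 2 * n + 2 * t + 1 ∧ Nots C t ∧
        ∀ x, C.Accepts x ↔ f x) := by
  refine ⟨halfClique_inNP, fun _ _ h hx => halfClique_mono h hx, fun n μ hn hμ => ?_,
    fun n t f D h0 h1 => ?_, fun n t f ht => ?_⟩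
  · obtain ⟨D, d1, d2, h⟩ := halfClique_nots n μ hn hμ
    exact ⟨D, d1, d2, fun C hC hs => ⟨(h C hC hs).1, fun t hN => (h C hC hs).2 t hN.1 hN.2⟩⟩
  · obtain ⟨C, c1, c2, c3, c4, c5⟩ := tight n t f D h0 h1
    exact ⟨C, c1, c2, ⟨c3, c4⟩, c5⟩
  · obtain ⟨C, c1, c2, c3, c4, c5⟩ := exact_circuit n t ht f
    exact ⟨C, c1, c2, ⟨c3, c4⟩, c5⟩

end Pool.Agent.Results.MP_79d702_lc.NegationPower
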