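import Pool.Agent.V8H51.RS.SatR
import Pool.Agent.V8H51.RS.Sim2

set_option autoImplicit false

/-!
# Deterministic programs with recursion which read linearly many bits

A deterministic program with recursion (`Prog`) has finitely many states; in a state it reads an
input bit and branches on its value, or it calls itself in another state and branches on the state
in which this call ends, or it ends the present call. There is no bound on the number of steps or
on the depth of the recursion. This is the nonuniform form of the deterministic machines with a
stack; by clauses (3) and (4) of the theorem, which are the nonuniform version of a theorem of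
S. Cook (1971), the programs with polynomially many states compute exactly the functions in P/poly.

The theorem: for every `k`, programs for 3-SAT which, on the inputs, read `n` chosen sign bits (of
an instance with a linear number of clauses) at most `k * n` times have `2 ^ Ω(n)` states. Only the
reads which are really made in the runs on the inputs count, in any order, depending on the input;
the other bits of the instance can be read without restriction. In particular this holds for
circuits of any kind, evaluated recursively: here the reads of a computation path are counted, and a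
second argument is evaluated only if it matters.

For programs without calls (branching programs, which correspond to L/poly) such bounds are due to
Ajtai (1999) and Beame, Saks, Sun and Vee (2003).
-/

namespace Pool.Agent.Results.MP_79d702_lc.RecursiveEvaluation

open Pool.Agent.V8H51.RS Pool.Agent.H554R2.Sem Pool.Agent.H554R2.Cnf

/-- The instance of 3-SAT which is obtained from `b` if the sign of the first literal of the clause
`a i` is changed to `x i`, for all `i`. -/
noncomputable abbrev inst {n M ℓ : ℕ} (a : Fin n ↪ Fin M) (b : Idx M ℓ → Bool) (x : Pt n) :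
    Idx M ℓ → Bool :=
  plug (fun i => sgn ℓ (a i)) b x

/-- The number of times the signs of the first literals of the clauses `a i` are read, if `L` is
the list of the bits which are read. -/
def signs {n M ℓ : ℕ} (a : Fin n ↪ Fin M) (L : List (Idx M ℓ)) : ℕ :=
  ∑ i, L.count (sgn ℓ (a i))

theorem result :
    (∀ k : ℕ, ∃ D : ℕ, 0 < D ∧ ∀ (n M ℓ : ℕ) (a : Fin n ↪ Fin M), D * n ≤ M → D * n ≤ 2 ^ ℓ →
      ∃ b : Idx M ℓ → Bool,
        -- (1) programs with recursion
        (∀ (R : Type) [Fintype R] [Nonempty R] (U : R → Prog (Idx M ℓ)),
          (∀ (r : R) (x : Pt n) (L : List (Idx M ℓ)), (U r).Accepts (inst a b x) L →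
            Sat3 (inst a b x)) →
          Nat.card R * Nat.card {x : Pt n // Sat3 (inst a b x)} ≤ 2 ^ (n / D) *
            Nat.card {u : R × Pt n // ∃ L, (U u.1).Accepts (inst a b u.2) L ∧
              signs a L ≤ k * n} →
          ∃ r, 2 ^ (n / D) ≤ Fintype.card (U r).State) ∧
        -- (2) recursive evaluation of circuits
        ∀ C : Circuit (Idx M ℓ),
          (∀ x : Pt n, C.out (inst a b x) = true → Sat3 (inst a b x)) →
          Nat.card {x : Pt n // Sat3 (inst a b x)} ≤ 2 ^ (n / D) *
            Nat.card {x : Pt n // C.out (inst a b x) = true ∧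
              signs a (C.reads (inst a b x)) ≤ k * n} →
          2 ^ (n / D) ≤ 3 * C.length + 2) ∧
    -- (3) circuits are programs
    (∀ (V : Type) (C : Circuit V), ∃ P : Prog V, Fintype.card P.State = 3 * C.length + 2 ∧
      ∀ x : V → Bool, ∃ r, Run P x P.start (C.reads x) r ∧ (P.acc r ↔ C.out x = true)) ∧
    -- (4) programs are circuits
    ∀ (V : Type) (P : Prog V), ∃ C : Circuit V, C.length ≤ 16 * Fintype.card P.State ^ 5 ∧
      ∀ x : V → Bool, C.out x = true ↔ ∃ L, P.Accepts x L := by
  classical
  refine ⟨fun k => ?_, fun V C => sim1 C, fun V P => sim2 P⟩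
  obtain ⟨D, hD, h⟩ := finalR k
  refine ⟨D, hD, fun n M ℓ a hM hℓ => ?_⟩
  obtain ⟨b, hb⟩ := h n M ℓ a hM hℓ
  refine ⟨b, hb, fun C hC hl => ?_⟩
  obtain ⟨P, hP, hx⟩ := sim1 C
  have hacc : ∀ (w : Idx M ℓ → Bool) L, P.Accepts w L → C.out w = true ∧ L = C.reads w := by
    rintro w L ⟨r, hr, hL⟩
    obtain ⟨r', h1, h2⟩ := hx w
    obtain ⟨h3, h4⟩ := (RunH.of_run hL).det (RunH.of_run h1)
    rw [h4] at hr
    exact ⟨h2.1 hr, h3⟩
  obtain ⟨r, hr⟩ := hb Unit (fun _ => P) (fun _ x L hL => hC x (hacc _ L hL).1) (by
    rw [Nat.card_unique, one_mul]
    refine hl.trans (Nat.mul_le_mul_left _ ?_)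
    refine Nat.card_le_card_of_injective
      (fun y => ⟨((), y.1), C.reads (inst a b y.1), ?_, y.2.2⟩) ?_
    · obtain ⟨r', h1, h2⟩ := hx (inst a b y.1)
      exact ⟨r', h2.2 y.2.1, h1⟩
    · intro y z hyz
      exact Subtype.ext (by simpa using hyz))
  rw [hP] at hr
  exact hr

end Pool.Agent.Results.MP_79d702_lc.RecursiveEvaluation
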