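import Pool.Agent.V8H51.TN.SatN

set_option autoImplicit false

/-!
# Circuits of small treewidth which read linearly many bits

A circuit (`Circ`) is a directed acyclic graph of gates with arbitrary fan-out. The wires carry words.
A gate receives the words computed by the (at most `d`) gates which feed it; then it reads some
input bits, which it can choose depending on these words and on the bits already read, and computes
a word by an arbitrary function (`op g u` is a decision tree). There is no bound on the memory or
the time used inside a gate. A nondeterministic circuit (`NCirc`) also has guesses: each gate guesses
an element of a second set, receives also the guesses of the gates which feed it, and makes a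
check, depending on all it knows; the guesses do not influence which bits are read. Special
cases: deterministic circuits (one possible guess, no checks), among them Boolean circuits with
any gates of fan-in two (`w = 1`, `d = 2`, a gate reads a fixed bit or none) and branching programs (the
gates form a path, the word is the state, each gate reads one bit); nondeterministic
circuits and constraint networks with fixed wiring (one possible word).

The theorem: for every `k`, such circuits for 3-SAT which read `n` chosen sign bits (of an instance
with a linear number of clauses) at most `k * n` times altogether, and at most `n / D` times in one
gate, have treewidth at least about `n / (D w d)`, or else `2 ^ (n / D)` gates. Only the reads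
which are really made on the accepted inputs count; the other bits of the instance can be read
without restriction. The circuits may be random, with one-sided error, and it is enough that they
accept a `2 ^ (- n / D)` fraction of the satisfiable instances. The bound is optimal up to the
factor `D`: a path of gates which collects the `n` sign bits in one word decides every instance.

For branching programs such bounds are due to Ajtai (1999) and Beame, Saks, Sun and Vee (2003).

Proof. Let an accepted input with few reads be given. The tree decomposition, weighted by the reads
made on this input, is cut at few nodes so that the remaining components are light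
(`Pool.Agent.V8H51.TW.cut`), and the components are put together to a constant number of groups of
linear weight (`group`). The cut and the groups are described by few numbers of gates. If they are
fixed, and also the words and guesses in the bags of the cut nodes, then the groups of gates behave
like the blocks of a branching program (`toBlkN`): each group computes from what it reads. So the
theorem about large rectangles of Beame, Saks, Sun and Vee (starting file `H554R2.Lin`) applies, and
the satisfiable instances contain no large rectangle for a suitable `b`.
-/

namespace Pool.Agent.Results.MP_79d702_lc.SmallTreewidth

open Pool.Agent.V8H51.TW Pool.Agent.V8H51.TN Pool.Agent.H554R2.Sem Pool.Agent.H554R2.Cnf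

/-- The instance of 3-SAT which is obtained from `b` if the sign of the first literal of the clause
`a i` is changed to `x i`, for all `i`. -/
noncomputable abbrev inst {n M ℓ : ℕ} (a : Fin n ↪ Fin M) (b : Idx M ℓ → Bool) (x : Pt n) :
    Idx M ℓ → Bool :=
  plug (fun i => sgn ℓ (a i)) b x

/-- The number of times the signs of the first literals of the clauses `a i` are read, if `L` is
the list of the bits which are read. -/
def signs {n M ℓ : ℕ} (a : Fin n ↪ Fin M) (L : List (Idx M ℓ)) : ℕ :=
  ∑ i, L.count (sgn ℓ (a i))

theorem result (k : ℕ) : ∃ D : ℕ, 0 < D ∧ ∀ (n M ℓ : ℕ) (a : Fin n ↪ Fin M), D * n ≤ M →
    D * n ≤ 2 ^ ℓ → ∃ b : Idx M ℓ → Bool, ∀ (t w d : ℕ) (R : Type) [Fintype R] [Nonempty R]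
      (α γ : Type) [Fintype α] [Fintype γ] (U : R → NCirc (Idx M ℓ) α γ),
      Fintype.card α * Fintype.card γ ≤ 2 ^ w → (∀ r, (U r).TreewidthLE t) →
      (∀ r g, (U r).arity g ≤ d) →
      (∀ r (x : Pt n), (U r).Accepts (inst a b x) → Sat3 (inst a b x)) →
      Nat.card R * Nat.card {x : Pt n // Sat3 (inst a b x)} ≤ 2 ^ (n / D) *
        Nat.card {u : R × Pt n // (U u.1).Accepts (inst a b u.2) ∧
          ∑ g, signs a ((U u.1).read (inst a b u.2) g) ≤ k * n ∧
          ∀ g, signs a ((U u.1).read (inst a b u.2) g) ≤ n / D} →
      n / D ≤ w * ((d + 1) * (t + 1)) ∨ ∃ r, 2 ^ (n / D) ≤ (U r).size :=
  finalN k

end Pool.Agent.Results.MP_79d702_lc.SmallTreewidth
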